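import Pool.Agent.Helper36.P6.Enum

set_option autoImplicit false

namespace Pool.Agent.Results.MP_dc774f_co.InducedP6

open SimpleGraph

/-- `H` is a minor of `G`: there are pairwise disjoint, connected (hence nonempty) vertex sets
`B w` of `G`, one for every vertex `w` of `H`, such that `G` has an edge between `B w` and `B w'`
whenever `w` and `w'` are adjacent in `H`. -/
def HasMinor {W V : Type} (G : SimpleGraph V) (H : SimpleGraph W) : Prop :=
  ∃ B : W → Set V,
    (∀ w, (G.induce (B w)).Connected) ∧
    (∀ w w', w ≠ w' → Disjoint (B w) (B w')) ∧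
    (∀ w w', H.Adj w w' → ∃ a ∈ B w, ∃ b ∈ B w', G.Adj a b)

/-- Planarity, in the form of Wagner's theorem: no `K₅` minor and no `K₃,₃` minor. -/
def Planar {V : Type} (G : SimpleGraph V) : Prop :=
  ¬ HasMinor G (⊤ : SimpleGraph (Fin 5)) ∧
    ¬ HasMinor G (completeBipartiteGraph (Fin 3) (Fin 3))

/-- Every planar graph on `n ≥ 20` vertices without an induced path on six vertices has at most
`⌊50 (n - 2) / 17⌋ + 1` edges. -/
theorem result {V : Type} [Finite V] (G : SimpleGraph V) (hn : 20 ≤ Nat.card V) (hG : Planar G)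
    (hP : ¬ Nonempty (pathGraph 6 ↪g G)) :
    G.edgeSet.ncard ≤ 50 * (Nat.card V - 2) / 17 + 1 := by
  have := Fintype.ofFinite V
  have hc : Nat.card V = Fintype.card V := Nat.card_eq_fintype_card
  rw [hc] at hn ⊢
  have h := Pool.Agent.Helper36.P6.main G hG.1 hG.2 hP (by omega)
  rw [Pool.Agent.Helper36.P6.dsum_edges] at h
  omega

end Pool.Agent.Results.MP_dc774f_co.InducedP6
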